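import Pool.Agent.Results.MP_ab6b4f_lc.Urysohn
import Pool.Agent.Results.MP_4f977f_lc.IteratedUrysohn
import Pool.Agent.Y584.DO.Family

/-!
# Continuum many doubled co-d-CEA degrees outside countably many Urysohn spaces

A strengthening of the starting result `Urysohn` (for every represented Urysohn space `Y` there is a
doubled co-d-CEA e-degree which is not a `Y`-degree): for countably many represented Urysohn spaces
`Y n` and every set `B` there are continuum many pairwise inequivalent doubled co-d-CEA e-degrees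
none of which is the degree of a point of one of the `Y n`, also relative to `B`.

Proof. There is a perfect set of points of the power of the space with two origins, any two of which
are equal at each coordinate up to an exchange of the origins, with the following property. If one
of them belongs to one of countably many given sets (here: the sets of the points whose degree
relative to `B` is the degree of a point of `Y n`, with given reductions), then this set is dense
near this point. By the argument of the starting result such a set cannot contain two points of the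
perfect set which are near to each other. So all but countably many points of the perfect set are
outside these sets. Finally, each set of naturals is equivalent to countably many others, relative
to `B`.
-/

set_option autoImplicit false

namespace Pool.Agent.Results.MP_ab6b4f_lc.ContinuumMany

open Pool.Agent.H454R3.EDeg Pool.Agent.H454R3.Mono TopologicalSpace
open Pool.Agent.Results.MP_ab6b4f_lc.Urysohn Pool.Agent.Results.MP_ab6b4f_lc.Urysohn.Pt
open Pool.Agent.Results.MP_4f977f_lc.IteratedUrysohn (relOp app_relOp ered_join_of)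
open Pool.Agent.Y584.DO

universe u

/-- `S` and `T` have the same enumeration degree relative to `B`: each of them is e-reducible to the
join of the other one and `B`. -/
def EqvOver (B S T : Set ℕ) : Prop := ERed S (join T B) ∧ ERed T (join S B)

/-- the central argument of the starting result, for arbitrary operators -/
theorem no_pair {Y : Type u} [TopologicalSpace Y] [T25Space Y] (U : ℕ → Set Y)
    (hU : IsTopologicalBasis (Set.range U)) (Φ Ψ : Set (ℕ × ℕ)) (y0 : ℕ → Pt) (k : ℕ)
    (hd : DenseIn {w | ∃ y : Y, Nbase U y = app Φ (code w) ∧ code w = app Ψ (Nbase U y)} y0 k)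
    (x x' : ℕ → Pt) (hx : ∃ y : Y, Nbase U y = app Φ (code x) ∧ code x = app Ψ (Nbase U y))
    (hx' : ∃ y : Y, Nbase U y = app Φ (code x') ∧ code x' = app Ψ (Nbase U y))
    (hk : Cyl y0 k x) (hk' : Cyl y0 k x') (hne : x ≠ x')
    (hrel : ∀ i, x i = x' i ∨ (x i = o false ∧ x' i = o true) ∨ (x i = o true ∧ x' i = o false)) :
    False := by
  obtain ⟨y, hy1, hy2⟩ := hx
  obtain ⟨y', hy1', hy2'⟩ := hx'
  -- the two points of `Y` are different
  have hyy : y ≠ y' := by
    intro h
    have h1 : code x = code x' := by rw [hy2, hy2', h]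
    obtain ⟨i, hi⟩ := Function.ne_iff.1 hne
    rcases hrel i with h2 | ⟨h2, h3⟩ | ⟨h2, h3⟩
    · exact hi h2
    · exact code_ne h2 h3 h1
    · exact code_ne h3 h2 h1.symm
  obtain ⟨V, hyV, hVo, V', hyV', hVo', hdisj⟩ := exists_open_nhds_disjoint_closure hyy
  -- continuity of the embedding at a point
  have hcont : ∀ (x : ℕ → Pt) (y : Y), Nbase U y = app Φ (code x) →
      ∀ V : Set Y, IsOpen V → y ∈ V → ∃ m0, ∀ m, m0 ≤ m → ∀ w, ∀ v : Y,
        Nbase U v = app Φ (code w) → (∀ i < m, Near m (x i) (w i)) → v ∈ V := by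
    intro x y hxy V hVo hyV
    obtain ⟨_, ⟨a, rfl⟩, ha1, ha2⟩ := hU.exists_subset_of_mem_open hyV hVo
    have h1 : a ∈ app Φ (code x) := by rw [← hxy]; exact ha1
    obtain ⟨u, hu1, hu2⟩ := h1
    refine ⟨u, fun m hm w v hv hN => ha2 ?_⟩
    have h2 : a ∈ Nbase U v := by
      rw [hv]
      exact ⟨u, hu1, fun q hq => code_near (hu2 hq) (by have := D_bound hq; omega) hN⟩
    exact h2
  obtain ⟨m1, hm1⟩ := hcont x y hy1 V hVo hyV
  obtain ⟨m2, hm2⟩ := hcont x' y' hy1' V' hVo' hyV'
  obtain ⟨m, hm, hmm1, hmm2⟩ : ∃ m, k ≤ m ∧ m1 ≤ m ∧ m2 ≤ m :=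
    ⟨k + m1 + m2, by omega, by omega, by omega⟩
  -- the point `z`
  classical
  obtain ⟨z, ⟨v, hv1, hv2⟩, hz⟩ := hd (fun i => if x i = x' i then x i else
      if i < k then x i else l (m + 1)) (by
    intro i hi
    by_cases h : x i = x' i
    · simp only [h, if_true]; rw [← h]; exact hk i hi
    · simp only [h, if_false, hi, if_true]; exact hk i hi) m
  have hxk : ∀ i < k, x i = x' i := fun i hi => (hk i hi).trans (hk' i hi).symm
  have hz1 : ∀ i < m, x i = x' i → z i = x i := by
    intro i hi h
    rw [hz i hi]; simp [h]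
  have hz2 : ∀ i < m, x i ≠ x' i → z i = l (m + 1) := by
    intro i hi h
    rw [hz i hi]
    have h1 : ¬ i < k := fun h2 => h (hxk i h2)
    simp [h, h1]
  have hzk : Cyl y0 k z := by
    intro i hi
    rw [hz1 i (by omega) (hxk i hi)]; exact hk i hi
  -- `v` is in the closure of both neighbourhoods
  have hclos : ∀ (x₁ x₂ : ℕ → Pt) (V : Set Y),
      (∀ i, x₁ i = x₂ i ↔ x i = x' i) → (∀ i, x i = x' i → x₁ i = x i) →
      (∀ i, x₁ i = x₂ i ∨ (x₁ i = o false ∧ x₂ i = o true) ∨ (x₁ i = o true ∧ x₂ i = o false)) →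
      (∀ w, ∀ v : Y, Nbase U v = app Φ (code w) →
        (∀ i < m, Near m (x₁ i) (w i)) → v ∈ V) → v ∈ closure V := by
    intro x₁ x₂ V h1 h1' h2 h3
    rw [mem_closure_iff]
    intro O hO hvO
    obtain ⟨j0, hj0⟩ := hcont z v hv1 O hO hvO
    obtain ⟨j, hj, hjm⟩ : ∃ j, j0 ≤ j ∧ m ≤ j := ⟨j0 + m, by omega, by omega⟩
    obtain ⟨u, ⟨v', hv'1, hv'2⟩, hu⟩ := hd (fun i => if i < m ∧ x i ≠ x' i then
        p (m + 1) (j + 1) (if x₁ i = o false then false else true) else z i) (by
      intro i hi
      have h4 : ¬ (i < m ∧ x i ≠ x' i) := fun h => h.2 (hxk i hi)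
      simp only [h4, if_false]
      exact hzk i hi) j
    refine ⟨v', hj0 j hj u v' hv'1 ?_, h3 u v' hv'1 ?_⟩
    · intro i hi
      rw [hu i hi]
      dsimp only
      by_cases h4 : i < m ∧ x i ≠ x' i
      · rw [if_pos h4, hz2 i h4.1 h4.2]
        exact Or.inr ⟨_, _, rfl, by omega⟩
      · rw [if_neg h4]; exact near_refl _ _
    · intro i hi
      rw [hu i (by omega)]
      dsimp only
      by_cases h4 : x i = x' i
      · have h5 : ¬ (i < m ∧ x i ≠ x' i) := fun h => h.2 h4
        rw [if_neg h5, hz1 i hi h4, h1' i h4]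
        exact near_refl _ _
      · rw [if_pos ⟨hi, h4⟩]
        rcases h2 i with h5 | ⟨h5, -⟩ | ⟨h5, -⟩
        · exact absurd ((h1 i).1 h5) h4
        · rw [h5]
          exact Or.inr ⟨m + 1, j + 1, by simp, by omega, by omega⟩
        · rw [h5]
          exact Or.inr ⟨m + 1, j + 1, by simp, by omega, by omega⟩
  have hc1 : v ∈ closure V := hclos x x' V (fun i => Iff.rfl) (fun i h => rfl)
    (fun i => by
      rcases hrel i with h | h | h
      exacts [Or.inl h, Or.inr (Or.inl h), Or.inr (Or.inr h)])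
    (fun w v hv hN => hm1 m hmm1 w v hv hN)
  have hc2 : v ∈ closure V' := hclos x' x V' (fun i => ⟨fun h => h.symm, fun h => h.symm⟩)
    (fun i h => h.symm)
    (fun i => by
      rcases hrel i with h | ⟨h, h'⟩ | ⟨h, h'⟩
      exacts [Or.inl h.symm, Or.inr (Or.inr ⟨h', h⟩), Or.inr (Or.inl ⟨h', h⟩)])
    (fun w v hv hN => hm2 m hmm2 w v hv hN)
  exact Set.disjoint_left.1 hdisj hc1 hc2

/-- **Continuum many doubled co-d-CEA degrees outside countably many Urysohn spaces, relative to any
set.** The third clause is the special case of one space. -/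
theorem result :
    (∀ (Y : ℕ → Type u) [∀ n, TopologicalSpace (Y n)] [∀ n, T25Space (Y n)]
      (U : ∀ n, ℕ → Set (Y n)), (∀ n, IsTopologicalBasis (Set.range (U n))) → ∀ B : Set ℕ,
      ∃ f : (ℕ → Bool) → Set ℕ, (∀ b, IsDoubled (f b)) ∧
        (∀ b b', b ≠ b' → ¬ EqvOver B (f b) (f b')) ∧
        ∀ b n (y : Y n), ¬ EqvOver B (Nbase (U n) y) (f b)) ∧
    (∀ (B S T : Set ℕ), EEqv S T → EqvOver B S T) ∧
    (∀ (Y : Type u) [TopologicalSpace Y] [T25Space Y] (U : ℕ → Set Y),
      IsTopologicalBasis (Set.range U) →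
      ∃ f : (ℕ → Bool) → Set ℕ, (∀ b, IsDoubled (f b)) ∧
        (∀ b b', b ≠ b' → ¬ EEqv (f b) (f b')) ∧ ∀ b (y : Y), ¬ EEqv (Nbase U y) (f b)) := by
  have heqv : ∀ (B S T : Set ℕ), EEqv S T → EqvOver B S T := fun B S T h =>
    ⟨ered_join_of h.1, ered_join_of h.2⟩
  have hmain : ∀ (Y : ℕ → Type u) [∀ n, TopologicalSpace (Y n)] [∀ n, T25Space (Y n)]
      (U : ∀ n, ℕ → Set (Y n)), (∀ n, IsTopologicalBasis (Set.range (U n))) → ∀ B : Set ℕ,
      ∃ f : (ℕ → Bool) → Set ℕ, (∀ b, IsDoubled (f b)) ∧
        (∀ b b', b ≠ b' → ¬ EqvOver B (f b) (f b')) ∧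
        ∀ b n (y : Y n), ¬ EqvOver B (Nbase (U n) y) (f b) := by
    intro Y _ _ U hU B
    -- the sets
    let X : ℕ → Set (ℕ → Pt) := fun q => {w | ∃ y : Y q.unpair.1,
      Nbase (U q.unpair.1) y = app (relOp (Op q.unpair.2.unpair.1) B) (code w) ∧
      code w = app (relOp (Op q.unpair.2.unpair.2) B) (Nbase (U q.unpair.1) y)}
    obtain ⟨w, hw1, hw2, hw3⟩ := family (o1 := o false) (o2 := o true) (by simp) X
    -- the exceptional set is countable
    let Z : Set (ℕ → Bool) := {b | ∃ q, w b ∈ X q}
    have hZ : Z.Countable := by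
      have h1 : ∀ b : Z, ∃ q k, w b ∈ X q ∧ DenseIn (X q) (w b) k := by
        rintro ⟨b, q, hq⟩
        obtain ⟨k, hk⟩ := hw3 b q hq
        exact ⟨q, k, hq, hk⟩
      choose q k hq hk using h1
      have hinj : Function.Injective fun b : Z =>
          (q b, k b, List.ofFn fun i : Fin (k b) => w b i) := by
        intro b b' heq
        by_contra hne
        simp only [Prod.mk.injEq] at heq
        obtain ⟨e1, e2, e3⟩ := heq
        have hcyl : Cyl (w b) (k b) (w b') := by
          intro i hi
          have h1 : (List.ofFn fun i : Fin (k b) => w b i)[i]? =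
              (List.ofFn fun i : Fin (k b') => w b' i)[i]? := by rw [e3]
          rw [List.getElem?_ofFn, List.getElem?_ofFn] at h1
          rw [dif_pos hi, dif_pos (by omega)] at h1
          simpa using h1.symm
        have hb' : w b' ∈ X (q b) := by rw [e1]; exact hq b'
        exact no_pair (U (q b).unpair.1) (hU _) _ _ (w b) (k b) (hk b) (w b) (w b') (hq b) hb'
          (Cyl.refl _ _) hcyl (hw1 _ _ fun h => hne (Subtype.ext h)) (hw2 b b')
      exact Set.countable_coe_iff.1 hinj.countable
    -- countable sections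
    have hsec : ∀ b, {b' | EqvOver B (code (w b)) (code (w b'))}.Countable := by
      intro b
      have h1 : {b' | EqvOver B (code (w b)) (code (w b'))} ⊆
          ⋃ e : ℕ, {b' | code (w b') = app (Op e) (join (code (w b)) B)} := by
        intro b' hb'
        obtain ⟨e, he⟩ := ered_iff.1 hb'.2
        exact Set.mem_iUnion.2 ⟨e, he⟩
      refine Set.Countable.mono h1 (Set.countable_iUnion fun e => Set.Subsingleton.countable ?_)
      intro b1 hb1 b2 hb2
      by_contra hne
      have h2 : code (w b1) = code (w b2) := Eq.trans hb1 (Eq.symm hb2)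
      obtain ⟨i, hi⟩ := Function.ne_iff.1 (hw1 b1 b2 hne)
      rcases hw2 b1 b2 i with h3 | ⟨h3, h4⟩ | ⟨h3, h4⟩
      · exact hi h3
      · exact code_ne h3 h4 h2
      · exact code_ne h4 h3 h2.symm
    obtain ⟨f, hf1, hf2, hf3⟩ := independent (T := ℕ → Bool) (by simp)
      (fun b b' => EqvOver B (code (w b)) (code (w b'))) (fun b b' h => ⟨h.2, h.1⟩) hsec Z hZ
    refine ⟨fun b => code (w (f b)), fun b => isDoubled_code _, fun b b' hne => hf3 b b' hne, ?_⟩
    rintro b n y ⟨h1, h2⟩
    apply hf2 b
    obtain ⟨i, hi⟩ := ered_iff.1 h1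
    obtain ⟨j, hj⟩ := ered_iff.1 h2
    refine ⟨Nat.pair n (Nat.pair i j), ?_⟩
    have e1 : (Nat.pair n (Nat.pair i j)).unpair.1 = n := by simp
    have e2 : (Nat.pair n (Nat.pair i j)).unpair.2.unpair.1 = i := by simp
    have e3 : (Nat.pair n (Nat.pair i j)).unpair.2.unpair.2 = j := by simp
    show ∃ y : Y (Nat.pair n (Nat.pair i j)).unpair.1, _
    rw [e2, e3, e1]
    refine ⟨y, ?_, ?_⟩
    · rw [app_relOp]; exact hi
    · rw [app_relOp]; exact hj
  refine ⟨hmain, heqv, fun Y _ _ U hU => ?_⟩
  obtain ⟨f, h1, h2, h3⟩ := hmain (fun _ => Y) (fun _ => U) (fun _ => hU) ∅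
  exact ⟨f, h1, fun b b' hne h => h2 b b' hne (heqv _ _ _ h),
    fun b y h => h3 b 0 y (heqv _ _ _ h)⟩

end Pool.Agent.Results.MP_ab6b4f_lc.ContinuumMany
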